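import Pool.Agent.Lib.Helper67.CoverDefs

/-!
# H40G (MP_eb52a2_al), file A1: covers of degree prime to `p` and elements with `n ^ (p ^ k) → 1`
-/

set_option autoImplicit false

namespace Pool.Agent.Lib.H40G

open Filter Topology Pool.Agent.Lib.Helper67

variable {E G : Type*} [Group E] [TopologicalSpace E] [IsTopologicalGroup E] [T2Space E]
  [Group G] [TopologicalSpace G] [IsTopologicalGroup G] {π : E →* G}

/-- a neighbourhood of `1` which meets the kernel in `1` only -/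
theorem a1_nhds (hπ : IsFiniteCover π) : ∃ O : Set E, IsOpen O ∧ 1 ∈ O ∧ ∀ z ∈ π.ker, z ∈ O → z = 1 := by
  have hfin : ((π.ker : Set E) \ {1}).Finite := by
    have := hπ.finite
    exact (Set.toFinite (π.ker : Set E)).sdiff
  refine ⟨((π.ker : Set E) \ {1})ᶜ, hfin.isClosed.isOpen_compl, fun h => h.2 rfl, ?_⟩
  intro z hz hzO
  by_contra hne
  exact hzO ⟨hz, hne⟩

theorem a1_comm (hπ : IsFiniteCover π) {z : E} (hz : z ∈ π.ker) (g : E) : g * z = z * g :=
  Subgroup.mem_center_iff.1 (hπ.central hz) g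

/-- An element of the kernel with `z ^ (p ^ k) → 1` is trivial. -/
theorem a1_one (hπ : IsFiniteCover π) {p : ℕ} (hZ : (Nat.card π.ker).Coprime p) {z : E}
    (hz : z ∈ π.ker) (h : Tendsto (fun k : ℕ => z ^ (p ^ k)) atTop (𝓝 1)) : z = 1 := by
  obtain ⟨O, hO, h1, hOz⟩ := a1_nhds hπ
  obtain ⟨k, hk⟩ := (h.eventually (hO.mem_nhds h1)).exists
  have h2 : z ^ (p ^ k) = 1 := hOz _ (π.ker.pow_mem hz _) hk
  have h3 : orderOf z ∣ p ^ k := orderOf_dvd_of_pow_eq_one h2
  have h4 : orderOf z ∣ Nat.card π.ker := by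
    have h5 : orderOf (⟨z, hz⟩ : π.ker) = orderOf z := Subgroup.orderOf_mk z hz
    rw [← h5]
    exact orderOf_dvd_natCard _
  have h5 : orderOf z ∣ 1 := by
    have h6 : Nat.Coprime (Nat.card π.ker) (p ^ k) := hZ.pow_right k
    rw [← h6]
    exact Nat.dvd_gcd h4 h3
  exact orderOf_eq_one_iff.1 (Nat.dvd_one.1 h5)

/-- Two homomorphisms into the cover with the same projection agree at elements `m` with
`m ^ (p ^ k) → 1`, if the powers of the images tend to `1`. -/
theorem a1_eq (hπ : IsFiniteCover π) {p : ℕ} (hZ : (Nat.card π.ker).Coprime p) {x y : E}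
    (hxy : π x = π y) (hx : Tendsto (fun k : ℕ => x ^ (p ^ k)) atTop (𝓝 1))
    (hy : Tendsto (fun k : ℕ => y ^ (p ^ k)) atTop (𝓝 1)) : x = y := by
  have hz : x * y⁻¹ ∈ π.ker := by
    rw [MonoidHom.mem_ker, map_mul, map_inv, hxy, mul_inv_cancel]
  have hxe : x = (x * y⁻¹) * y := by group
  have hc : Commute (x * y⁻¹) y := (a1_comm hπ hz y).symm
  have h1 : ∀ k : ℕ, (x * y⁻¹) ^ (p ^ k) = x ^ (p ^ k) * (y ^ (p ^ k))⁻¹ := by
    intro k
    have h2 : x ^ (p ^ k) = (x * y⁻¹) ^ (p ^ k) * y ^ (p ^ k) := by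
      conv_lhs => rw [hxe]
      exact hc.mul_pow _
    rw [h2]
    group
  have h2 : Tendsto (fun k : ℕ => (x * y⁻¹) ^ (p ^ k)) atTop (𝓝 1) := by
    simp only [h1]
    have := hx.mul hy.inv
    simpa using this
  have h3 := a1_one hπ hZ hz h2
  rw [hxe, h3, one_mul]

/-- the power sequence of a continuous homomorphism -/
theorem a1_map {M E' : Type*} [Group M] [TopologicalSpace M] [Group E'] [TopologicalSpace E']
    {φ : M →* E'} (hφ : Continuous φ) {p : ℕ} {m : M}
    (hm : Tendsto (fun k : ℕ => m ^ (p ^ k)) atTop (𝓝 1)) :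
    Tendsto (fun k : ℕ => (φ m) ^ (p ^ k)) atTop (𝓝 1) := by
  have h1 := (hφ.tendsto 1).comp hm
  rw [map_one] at h1
  refine h1.congr fun k => ?_
  rw [Function.comp_apply, map_pow]

/-- the power sequence in a subgroup -/
theorem a1_sub {K : Subgroup G} {p : ℕ} {m : K}
    (hm : Tendsto (fun k : ℕ => (m : G) ^ (p ^ k)) atTop (𝓝 1)) :
    Tendsto (fun k : ℕ => m ^ (p ^ k)) atTop (𝓝 1) := by
  rw [tendsto_subtype_rng]
  refine hm.congr fun k => ?_
  rw [SubmonoidClass.coe_pow]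

/-- the power sequence of a conjugate -/
theorem a1_conj {p : ℕ} {m : G} (hm : Tendsto (fun k : ℕ => m ^ (p ^ k)) atTop (𝓝 1)) (g : G) :
    Tendsto (fun k : ℕ => (g * m * g⁻¹) ^ (p ^ k)) atTop (𝓝 1) := by
  have h1 : Continuous fun x : G => g * x * g⁻¹ := by fun_prop
  have h2 := (h1.tendsto 1).comp hm
  rw [mul_one, mul_inv_cancel] at h2
  refine h2.congr fun k => ?_
  rw [Function.comp_apply, conj_pow]

/-- The splitting over `K` and a lift over `N` are compatible: `s(k) e t(n) = e` if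
`k π(e) n = π(e)`. -/
theorem a1_agree (hπ : IsFiniteCover π) {p : ℕ} (hZ : (Nat.card π.ker).Coprime p) {K : Subgroup G}
    {s : K →* E} (hs : IsSplitting π K s) {N : Subgroup G} {t : N →* E} (ht : IsSplitting π N t)
    (hN : ∀ n ∈ N, Tendsto (fun k : ℕ => n ^ (p ^ k)) atTop (𝓝 1)) (e : E) (k : K) (n : N)
    (h : (k : G) * π e * n = π e) : s k * e * t n = e := by
  have h1 : (k : G) = π e * (n : G)⁻¹ * (π e)⁻¹ := by
    rw [eq_mul_inv_iff_mul_eq, eq_mul_inv_iff_mul_eq]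
    exact h
  have hn := hN (n : G)⁻¹ (N.inv_mem n.2)
  have hk : Tendsto (fun j : ℕ => (k : G) ^ (p ^ j)) atTop (𝓝 1) := by
    rw [h1]
    exact a1_conj hn _
  have h2 : s k = e * (t n)⁻¹ * e⁻¹ := by
    refine a1_eq hπ hZ ?_ (a1_map hs.continuous (a1_sub hk)) ?_
    · rw [hs.proj, h1, map_mul, map_mul, map_inv, map_inv, ht.proj]
    · apply a1_conj
      have h3 : (t n)⁻¹ = t n⁻¹ := (map_inv t n).symm
      rw [h3]
      exact a1_map ht.continuous (a1_sub hn)
  rw [h2]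
  group

end Pool.Agent.Lib.H40G
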