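import Pool.Agent.Lib.H40G.A1

/-!
# H40G (MP_eb52a2_al), file A2: the function `c` on double cosets, the image of a splitting is open
-/

set_option autoImplicit false

namespace Pool.Agent.Lib.H40G

open Filter Topology Pool.Agent.Lib.Helper67

variable {E G : Type*} [Group E] [TopologicalSpace E] [Group G] [TopologicalSpace G] {π : E →* G}

/-- A function `c : E → Z` with `c (z s(k) e t(n)) = z c(e)`. -/
theorem a2_exists (hπ : IsFiniteCover π) {K N : Subgroup G} (s : K →* E) (t : N →* E)
    (hsK : ∀ k, π (s k) = k) (htN : ∀ n, π (t n) = n)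
    (hag : ∀ (e : E) (k : K) (n : N), (k : G) * π e * n = π e → s k * e * t n = e) :
    ∃ c : E → π.ker, ∀ (z : π.ker) (k : K) (e : E) (n : N), c (z * s k * e * t n) = z * c e := by
  have hc : ∀ (z : π.ker) (g : E), g * z = z * g := fun z g =>
    Subgroup.mem_center_iff.1 (hπ.central z.2) g
  -- uniqueness
  have huniq : ∀ (r : E) (z z' : π.ker) (k k' : K) (n n' : N),
      (z : E) * s k * r * t n = z' * s k' * r * t n' → z = z' := by
    intro r z z' k k' n n' h
    have h1 : (z : E) * s (k'⁻¹ * k) * r * t (n * n'⁻¹) = z' * r := by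
      have h2 : (z : E) * s (k'⁻¹ * k) * r * t (n * n'⁻¹) =
          (s k')⁻¹ * ((z : E) * s k * r * t n) * (t n')⁻¹ := by
        rw [map_mul, map_mul, map_inv, map_inv, ← mul_assoc (z : E), ← hc z (s k')⁻¹]
        group
      rw [h2, h, ← hc z' (s k')]
      group
    have h2 := congrArg π h1
    rw [map_mul, map_mul, map_mul, hsK, htN, map_mul, MonoidHom.mem_ker.1 z.2,
      MonoidHom.mem_ker.1 z'.2, one_mul, one_mul] at h2
    have h3 := hag r (k'⁻¹ * k) (n * n'⁻¹) h2
    rw [mul_assoc (z : E), mul_assoc (z : E), h3] at h1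
    exact Subtype.ext (mul_right_cancel h1)
  let rel : Setoid E :=
    { r := fun e e' => ∃ (z : π.ker) (k : K) (n : N), e' = z * s k * e * t n
      iseqv := by
        refine ⟨fun e => ⟨1, 1, 1, by simp⟩, ?_, ?_⟩
        · rintro e e' ⟨z, k, n, h⟩
          refine ⟨z⁻¹, k⁻¹, n⁻¹, ?_⟩
          have h1 := hc z (s k)⁻¹
          have h2 : (z : E)⁻¹ * (s k)⁻¹ * z = (s k)⁻¹ := by
            rw [mul_assoc, h1]
            group
          rw [h, map_inv, map_inv, Subgroup.coe_inv]
          calc e = (s k)⁻¹ * s k * e * t n * (t n)⁻¹ := by group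
            _ = ((z : E)⁻¹ * (s k)⁻¹ * z) * s k * e * t n * (t n)⁻¹ := by rw [h2]
            _ = _ := by group
        · rintro e e' e'' ⟨z, k, n, h⟩ ⟨z', k', n', h'⟩
          refine ⟨z' * z, k' * k, n * n', ?_⟩
          rw [h', h, map_mul, map_mul, Subgroup.coe_mul]
          have h1 := hc z (s k')
          calc (z' : E) * s k' * (z * s k * e * t n) * t n' =
              z' * (s k' * z) * s k * e * t n * t n' := by group
            _ = z' * (z * s k') * s k * e * t n * t n' := by rw [h1]
            _ = _ := by group }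
  let r : E → E := fun e => (Quotient.mk rel e).out
  have hr : ∀ e, ∃ (z : π.ker) (k : K) (n : N), e = z * s k * r e * t n := fun e =>
    Quotient.exact (Quotient.out_eq (Quotient.mk rel e))
  choose c k n hcn using hr
  refine ⟨c, fun z k' e n' => ?_⟩
  have h1 : r (z * s k' * e * t n') = r e := by
    have h2 : Quotient.mk rel e = Quotient.mk rel (z * s k' * e * t n') :=
      Quotient.sound ⟨z, k', n', rfl⟩
    change (Quotient.mk rel (z * s k' * e * t n')).out = (Quotient.mk rel e).out
    rw [h2]
  have h2 := hcn (z * s k' * e * t n')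
  rw [h1] at h2
  have h3 : (z : E) * s k' * e * t n' = (z * c e : π.ker) * s (k' * k e) * r e * t (n e * n') := by
    conv_lhs => rw [hcn e]
    rw [map_mul, map_mul, Subgroup.coe_mul]
    have h4 := hc (c e) (s k')
    calc (z : E) * s k' * (c e * s (k e) * r e * t (n e)) * t n' =
        z * (s k' * c e) * s (k e) * r e * t (n e) * t n' := by group
      _ = z * (c e * s k') * s (k e) * r e * t (n e) * t n' := by rw [h4]
      _ = _ := by group
  exact huniq (r e) _ _ _ _ _ _ (h2.symm.trans h3)

/-- The image of a splitting over an open subgroup is open. -/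
theorem a2_open [IsTopologicalGroup E] [T2Space E] [IsTopologicalGroup G] (hπ : IsFiniteCover π)
    {K : Subgroup G} (hK : IsOpen (K : Set G)) {s : K →* E} (hs : IsSplitting π K s) :
    IsOpen (s.range : Set E) := by
  obtain ⟨O, hO, h1, hOz⟩ := a1_nhds hπ
  -- the function `x ↦ x s(π x)⁻¹` on `π⁻¹ K`
  have hKo : IsOpen ((K.comap π : Subgroup E) : Set E) := hK.preimage hπ.continuous
  let f : ↥(K.comap π) → E := fun x => x.1 * (s ⟨π x.1, x.2⟩)⁻¹
  have hf : Continuous f := by
    refine continuous_subtype_val.mul (Continuous.inv (hs.continuous.comp ?_))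
    exact (hπ.continuous.comp continuous_subtype_val).subtype_mk _
  have hfo : IsOpen (Subtype.val '' (f ⁻¹' O)) := hKo.isOpenMap_subtype_val _ (hO.preimage hf)
  have heq : (s.range : Set E) = Subtype.val '' (f ⁻¹' O) := by
    ext x
    constructor
    · rintro ⟨k, rfl⟩
      have hx : s k ∈ K.comap π := by
        rw [Subgroup.mem_comap, hs.proj]
        exact k.2
      refine ⟨⟨s k, hx⟩, ?_, rfl⟩
      have h2 : (⟨π (s k), hx⟩ : K) = k := Subtype.ext (hs.proj k)
      change s k * (s ⟨π (s k), hx⟩)⁻¹ ∈ O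
      rw [h2, mul_inv_cancel]
      exact h1
    · rintro ⟨y, hy, rfl⟩
      have hz : f y ∈ π.ker := by
        rw [MonoidHom.mem_ker]
        change π (y.1 * (s ⟨π y.1, y.2⟩)⁻¹) = 1
        rw [map_mul, map_inv, hs.proj]
        exact mul_inv_cancel _
      have h2 := hOz _ hz hy
      exact ⟨⟨π y.1, y.2⟩, (mul_inv_eq_one.1 h2).symm⟩
  rw [heq]
  exact hfo

end Pool.Agent.Lib.H40G
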