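import Pool.Agent.Lib.H40G.A2

/-!
# H40G (MP_eb52a2_al), file A3: `Π̃` and `Π` have isomorphic restrictions to `N`
-/

set_option autoImplicit false

namespace Pool.Agent.Lib.H40G

open Filter Topology Pool.Agent.Lib.Helper67

variable {E G : Type*} [Group E] [TopologicalSpace E] [IsTopologicalGroup E] [T2Space E]
  [Group G] [TopologicalSpace G] [IsTopologicalGroup G] {π : E →* G}
  {V : Type*} [AddCommGroup V] [Module ℂ V]

/-- an open subgroup with finitely many conjugates in the image of the splitting -/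
theorem a3_sub (hπ : IsFiniteCover π) {K : Subgroup G} (hK : IsOpen (K : Set G)) {s : K →* E}
    (hs : IsSplitting π K s) {S : Set E} (hS : S.Finite) :
    ∃ W : Subgroup E, IsOpen (W : Set E) ∧ ∀ w ∈ W, ∀ σ ∈ S, ∃ k : K, s k = σ * w * σ⁻¹ := by
  induction S, hS using Set.Finite.induction_on with
  | empty => exact ⟨⊤, isOpen_univ, fun w _ σ hσ => hσ.elim⟩
  | @insert a S _ _ ih =>
    obtain ⟨W, hW, h⟩ := ih
    refine ⟨W ⊓ s.range.comap (MulAut.conj a).toMonoidHom, ?_, ?_⟩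
    · rw [Subgroup.coe_inf, Subgroup.coe_comap]
      refine hW.inter ((a2_open hπ hK hs).preimage ?_)
      change Continuous fun x : E => a * x * a⁻¹
      fun_prop
    · rintro w ⟨hw1, hw2⟩ σ hσ
      rcases hσ with rfl | hσ
      · obtain ⟨k, hk⟩ := hw2
        exact ⟨k, hk⟩
      · exact h w hw1 σ hσ

/-- the map `f ↦ ε(c(e)) f(π e)` -/
def phi (π : E →* G) (ε : π.ker →* ℂˣ) (c : E → π.ker) (f : G → V) (e : E) : V :=
  ((ε (c e) : ℂˣ) : ℂ) • f (π e)

/-- the inverse map -/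
noncomputable def psi (π : E →* G) (hπ : Function.Surjective π) (ε : π.ker →* ℂˣ) (c : E → π.ker)
    (F : E → V) (g : G) : V :=
  ((ε (c (Function.surjInv hπ g)) : ℂˣ) : ℂ)⁻¹ • F (Function.surjInv hπ g)

variable {K : Subgroup G} {s : K →* E} {ρ : Representation ℂ K V}

omit [IsTopologicalGroup E] [T2Space E] [IsTopologicalGroup G] in
theorem a3_rep (hπ : IsFiniteCover π) (hs : IsSplitting π K s) (ε : π.ker →* ℂˣ)
    (x : K.comap π) (v : V) :
    coverRep hπ ε hs ρ x v = ((ε (zPart hs x) : ℂˣ) : ℂ) • ρ (π.subgroupComap K x) v := rfl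

omit [IsTopologicalGroup E] [T2Space E] [IsTopologicalGroup G] in
theorem a3_dec (hs : IsSplitting π K s) (x : K.comap π) (e : E) :
    (x : E) * e = (zPart hs x : E) * s (π.subgroupComap K x) * e := by
  change (x : E) * e = ((x : E) * (s (π.subgroupComap K x))⁻¹) * s (π.subgroupComap K x) * e
  group

theorem phi_mem (hπ : IsFiniteCover π) (hK : IsOpen (K : Set G)) (hs : IsSplitting π K s)
    (ε : π.ker →* ℂˣ) {c : E → π.ker} (hc : ∀ (z : π.ker) (k : K) (e : E), c (z * s k * e) = z * c e)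
    {f : G → V} (hf : f ∈ cInd K ρ) : phi π ε c f ∈ cInd (K.comap π) (coverRep hπ ε hs ρ) := by
  obtain ⟨h1, ⟨U, hU, h2⟩, S, hS, h3⟩ := hf
  let L : G → E := Function.surjInv hπ.surjective
  have hL : ∀ g, π (L g) = g := Function.surjInv_eq hπ.surjective
  have hdec : ∀ e : E, f (π e) ≠ 0 → ∃ σ ∈ S, ∃ (z : π.ker) (k : K), e = z * s k * L σ := by
    intro e he
    obtain ⟨σ, hσ, k, hk, hkσ⟩ := h3 _ he
    refine ⟨σ, hσ, ⟨e * (s ⟨k, hk⟩ * L σ)⁻¹, ?_⟩, ⟨k, hk⟩, ?_⟩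
    · rw [MonoidHom.mem_ker, map_mul, map_inv, map_mul, hs.proj, hL, hkσ]
      exact mul_inv_cancel _
    · group
  refine ⟨fun x e => ?_, ?_, ⟨L '' S, hS.image _, fun e he => ?_⟩⟩
  · rw [a3_rep]
    unfold phi
    rw [a3_dec hs x e, hc, map_mul, map_mul, map_mul, MonoidHom.mem_ker.1 (zPart hs x).2, one_mul,
      hs.proj, h1, Units.val_mul, mul_smul, map_smul]
  · obtain ⟨W, hW, hWS⟩ := a3_sub hπ hK hs (hS.image L)
    refine ⟨U.comap π ⊓ W, (hU.preimage hπ.continuous).inter hW, ?_⟩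
    rintro u ⟨hu1, hu2⟩ e
    unfold phi
    rw [map_mul, h2 _ hu1]
    by_cases he : f (π e) = 0
    · rw [he, smul_zero, smul_zero]
    · obtain ⟨σ, hσ, z, k, hek⟩ := hdec e he
      obtain ⟨k', hk'⟩ := hWS u hu2 (L σ) ⟨σ, hσ, rfl⟩
      have h4 : e * u = z * s (k * k') * L σ := by
        rw [hek, map_mul, hk']
        group
      rw [h4, hc]
      nth_rewrite 2 [hek]
      rw [hc]
  · have he' : f (π e) ≠ 0 := by
      intro h0
      apply he
      unfold phi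
      rw [h0, smul_zero]
    obtain ⟨σ, hσ, z, k, hek⟩ := hdec e he'
    refine ⟨L σ, ⟨σ, hσ, rfl⟩, z * s k, ?_, hek⟩
    rw [Subgroup.mem_comap, map_mul, MonoidHom.mem_ker.1 z.2, one_mul, hs.proj]
    exact k.2

theorem psi_key (hπ : IsFiniteCover π) (hs : IsSplitting π K s)
    (ε : π.ker →* ℂˣ) {c : E → π.ker} (hc : ∀ (z : π.ker) (k : K) (e : E), c (z * s k * e) = z * c e)
    {F : E → V} (hF : F ∈ cInd (K.comap π) (coverRep hπ ε hs ρ)) (e : E) :
    F e = ((ε (c e) : ℂˣ) : ℂ) • psi π hπ.surjective ε c F (π e) := by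
  obtain ⟨h1, -, -⟩ := hF
  set e' := Function.surjInv hπ.surjective (π e) with he'
  have hπe : π e' = π e := Function.surjInv_eq hπ.surjective (π e)
  have hz : e * e'⁻¹ ∈ π.ker := by
    rw [MonoidHom.mem_ker, map_mul, map_inv, hπe, mul_inv_cancel]
  have hzK : e * e'⁻¹ ∈ K.comap π := by
    rw [Subgroup.mem_comap, MonoidHom.mem_ker.1 hz]
    exact K.one_mem
  have h2 := h1 ⟨e * e'⁻¹, hzK⟩ e'
  have h3 : π.subgroupComap K ⟨e * e'⁻¹, hzK⟩ = 1 := Subtype.ext (MonoidHom.mem_ker.1 hz)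
  have h4 : zPart hs ⟨e * e'⁻¹, hzK⟩ = ⟨e * e'⁻¹, hz⟩ := by
    apply Subtype.ext
    change e * e'⁻¹ * (s (π.subgroupComap K ⟨e * e'⁻¹, hzK⟩))⁻¹ = e * e'⁻¹
    rw [h3, map_one, inv_one, mul_one]
  rw [a3_rep, h3, h4, map_one] at h2
  have h5 : e * e'⁻¹ * e' = e := by group
  have h2' : F (e * e'⁻¹ * e') = ((ε ⟨e * e'⁻¹, hz⟩ : ℂˣ) : ℂ) • F e' := h2
  rw [h5] at h2'
  have h6 : c e = ⟨e * e'⁻¹, hz⟩ * c e' := by
    have h7 := hc ⟨e * e'⁻¹, hz⟩ 1 e'
    rwa [map_one, mul_one, h5] at h7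
  unfold psi
  rw [← he', h6, map_mul, Units.val_mul, mul_smul, smul_smul (_ : ℂ) (_ : ℂ) (F e'),
    mul_inv_cancel₀ (Units.ne_zero _), one_smul]
  exact h2'

theorem psi_mem (hπ : IsFiniteCover π) (hK : IsOpen (K : Set G)) (hs : IsSplitting π K s)
    (ε : π.ker →* ℂˣ) {c : E → π.ker} (hc : ∀ (z : π.ker) (k : K) (e : E), c (z * s k * e) = z * c e)
    {F : E → V} (hF : F ∈ cInd (K.comap π) (coverRep hπ ε hs ρ)) :
    psi π hπ.surjective ε c F ∈ cInd K ρ := by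
  have hkey := psi_key hπ hs ε hc hF
  have hkey' : ∀ e, psi π hπ.surjective ε c F (π e) = ((ε (c e) : ℂˣ) : ℂ)⁻¹ • F e := by
    intro e
    rw [hkey e, smul_smul, inv_mul_cancel₀ (Units.ne_zero _), one_smul]
  obtain ⟨h1, ⟨U, hU, h2⟩, S, hS, h3⟩ := hF
  refine ⟨fun k g => ?_, ?_, ⟨π '' S, hS.image _, fun g hg => ?_⟩⟩
  · obtain ⟨e, rfl⟩ := hπ.surjective g
    have h4 : (k : G) * π e = π (s k * e) := by rw [map_mul, hs.proj]
    have hx : s k ∈ K.comap π := by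
      rw [Subgroup.mem_comap, hs.proj]
      exact k.2
    have h5 := h1 ⟨s k, hx⟩ e
    have h6 : π.subgroupComap K ⟨s k, hx⟩ = k := Subtype.ext (hs.proj k)
    have h7 : zPart hs ⟨s k, hx⟩ = 1 := by
      apply Subtype.ext
      change s k * (s (π.subgroupComap K ⟨s k, hx⟩))⁻¹ = 1
      rw [h6, mul_inv_cancel]
    rw [a3_rep, h6, h7, map_one, Units.val_one, one_smul] at h5
    have h5' : F (s k * e) = ρ k (F e) := h5
    have h8 : c (s k * e) = c e := by
      have h9 := hc 1 k e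
      rwa [Subgroup.coe_one, one_mul, one_mul] at h9
    rw [h4, hkey', hkey', h8, h5', map_smul]
  · obtain ⟨W, hW, hWS⟩ := a3_sub hπ hK hs hS
    refine ⟨(U ⊓ W).map π, ?_, ?_⟩
    · exact hπ.isOpenMap _ (hU.inter hW)
    rintro _ ⟨u, ⟨hu1, hu2⟩, rfl⟩ g
    obtain ⟨e, rfl⟩ := hπ.surjective g
    rw [← map_mul, hkey', hkey', h2 u hu1]
    by_cases he : F e = 0
    · rw [he, smul_zero, smul_zero]
    · obtain ⟨σ, hσ, x, hx, hxσ⟩ := h3 e he
      obtain ⟨k', hk'⟩ := hWS u hu2 σ hσ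
      have h4 := a3_dec hs ⟨x, hx⟩ σ
      have h5 : e * u = (zPart hs ⟨x, hx⟩ : E) * s (π.subgroupComap K ⟨x, hx⟩ * k') * σ := by
        rw [map_mul, hk', hxσ]
        have h6 : x * σ = (zPart hs ⟨x, hx⟩ : E) * s (π.subgroupComap K ⟨x, hx⟩) * σ := h4
        calc x * σ * u = ((zPart hs ⟨x, hx⟩ : E) * s (π.subgroupComap K ⟨x, hx⟩) * σ) * u := by
              rw [← h6]
          _ = _ := by group
      have h6 : e = (zPart hs ⟨x, hx⟩ : E) * s (π.subgroupComap K ⟨x, hx⟩) * σ := hxσ.trans h4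
      rw [h5, hc]
      nth_rewrite 2 [h6]
      rw [hc]
  · obtain ⟨e, rfl⟩ := hπ.surjective g
    have he : F e ≠ 0 := by
      intro h0
      apply hg
      rw [hkey', h0, smul_zero]
    obtain ⟨σ, hσ, x, hx, hxσ⟩ := h3 e he
    exact ⟨π σ, ⟨σ, hσ, rfl⟩, π x, hx, by rw [hxσ, map_mul]⟩

/-- `Π̃` and `Π` have isomorphic restrictions to `N`. -/
theorem a3_iso (hπ : IsFiniteCover π) (hK : IsOpen (K : Set G)) (hs : IsSplitting π K s)
    (ε : π.ker →* ℂˣ) {N : Subgroup G} {t : N →* E} (ht : ∀ n, π (t n) = n)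
    (hag : ∀ (e : E) (k : K) (n : N), (k : G) * π e * n = π e → s k * e * t n = e) :
    ∃ Φ : cInd K ρ ≃ₗ[ℂ] cInd (K.comap π) (coverRep hπ ε hs ρ),
      ∀ (n : N) (f : cInd K ρ), Φ (cIndRep K ρ n f) = cIndRep (K.comap π) _ (t n) (Φ f) := by
  obtain ⟨c, hc0⟩ := a2_exists hπ s t hs.proj ht hag
  have hc : ∀ (z : π.ker) (k : K) (e : E), c (z * s k * e) = z * c e := by
    intro z k e
    have := hc0 z k e 1
    rwa [map_one, mul_one] at this
  have hct : ∀ (e : E) (n : N), c (e * t n) = c e := by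
    intro e n
    have := hc0 1 1 e n
    rwa [map_one, Subgroup.coe_one, one_mul, one_mul, one_mul] at this
  refine ⟨{ toFun := fun f => ⟨phi π ε c f.1, phi_mem hπ hK hs ε hc f.2⟩
            map_add' := ?_
            map_smul' := ?_
            invFun := fun F => ⟨psi π hπ.surjective ε c F.1, psi_mem hπ hK hs ε hc F.2⟩
            left_inv := ?_
            right_inv := ?_ }, ?_⟩
  · intro f g
    apply Subtype.ext
    funext e
    change ((ε (c e) : ℂˣ) : ℂ) • (f.1 (π e) + g.1 (π e)) = _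
    rw [smul_add]
    rfl
  · intro a f
    apply Subtype.ext
    funext e
    change ((ε (c e) : ℂˣ) : ℂ) • (a • f.1 (π e)) = a • (((ε (c e) : ℂˣ) : ℂ) • f.1 (π e))
    rw [smul_comm]
  · intro f
    apply Subtype.ext
    funext g
    change psi π hπ.surjective ε c (phi π ε c f.1) g = f.1 g
    unfold psi phi
    rw [smul_smul, inv_mul_cancel₀ (Units.ne_zero _), one_smul, Function.surjInv_eq hπ.surjective g]
  · intro F
    apply Subtype.ext
    funext e
    change ((ε (c e) : ℂˣ) : ℂ) • psi π hπ.surjective ε c F.1 (π e) = F.1 e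
    exact (psi_key hπ hs ε hc F.2 e).symm
  · intro n f
    apply Subtype.ext
    funext e
    change ((ε (c e) : ℂˣ) : ℂ) • f.1 (π e * n) = ((ε (c (e * t n)) : ℂˣ) : ℂ) • f.1 (π (e * t n))
    rw [hct, map_mul, ht]

end Pool.Agent.Lib.H40G
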