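import Pool.Agent.Lib.H40G.A1

/-!
# H40G (MP_eb52a2_al), file A4: existence and uniqueness of the splitting over a contracted subgroup
-/

set_option autoImplicit false

namespace Pool.Agent.Lib.H40G

open Filter Topology Pool.Agent.Lib.Helper67

variable {E G : Type*} [Group E] [TopologicalSpace E] [IsTopologicalGroup E] [T2Space E]
  [Group G] [TopologicalSpace G] [IsTopologicalGroup G] {π : E →* G}

theorem a4_unique (hπ : IsFiniteCover π) {p : ℕ} (hZ : (Nat.card π.ker).Coprime p) {N : Subgroup G}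
    (hN : ∀ n ∈ N, Tendsto (fun k : ℕ => n ^ (p ^ k)) atTop (𝓝 1)) {t t' : N →* E}
    (ht : IsSplitting π N t) (ht' : IsSplitting π N t') : t = t' := by
  ext n
  exact a1_eq hπ hZ ((ht.proj n).trans (ht'.proj n).symm) (a1_map ht.continuous (a1_sub (hN n n.2)))
    (a1_map ht'.continuous (a1_sub (hN n n.2)))

theorem a4_exists (hπ : IsFiniteCover π) {p : ℕ} (hZ : (Nat.card π.ker).Coprime p) {K : Subgroup G}
    (hK : IsOpen (K : Set G)) {s : K →* E} (hs : IsSplitting π K s) {N : Subgroup G}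
    (hN : ∀ n ∈ N, Tendsto (fun k : ℕ => n ^ (p ^ k)) atTop (𝓝 1)) {a : G}
    (ha : ∀ n ∈ N, Tendsto (fun k : ℕ => a ^ k * n * (a ^ k)⁻¹) atTop (𝓝 1)) :
    ∃ t : N →* E, IsSplitting π N t := by
  obtain ⟨b, hb⟩ := hπ.surjective a
  -- the lifts
  have hlift : ∀ (n : N) (k : ℕ) (h : a ^ k * (n : G) * (a ^ k)⁻¹ ∈ K),
      π ((b ^ k)⁻¹ * s ⟨_, h⟩ * b ^ k) = n ∧
      Tendsto (fun j : ℕ => ((b ^ k)⁻¹ * s ⟨_, h⟩ * b ^ k) ^ (p ^ j)) atTop (𝓝 1) := by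
    intro n k h
    constructor
    · rw [map_mul, map_mul, map_inv, map_pow, hb, hs.proj]
      group
    · have h1 : Tendsto (fun j : ℕ => (a ^ k * (n : G) * (a ^ k)⁻¹) ^ (p ^ j)) atTop (𝓝 1) :=
        a1_conj (hN n n.2) _
      have h2 : Tendsto (fun j : ℕ => (⟨_, h⟩ : K) ^ (p ^ j)) atTop (𝓝 1) := a1_sub h1
      have h3 := a1_conj (a1_map hs.continuous h2) (b ^ k)⁻¹
      simpa using h3
  have hev : ∀ n : N, ∀ᶠ k in atTop, a ^ k * (n : G) * (a ^ k)⁻¹ ∈ K := fun n =>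
    (ha n n.2).eventually (hK.mem_nhds K.one_mem)
  have hex : ∀ n : N, ∃ k, a ^ k * (n : G) * (a ^ k)⁻¹ ∈ K := fun n => (hev n).exists
  choose κ hκ using hex
  let T : N → E := fun n => (b ^ κ n)⁻¹ * s ⟨_, hκ n⟩ * b ^ κ n
  have hT : ∀ (n : N) (k : ℕ) (h : a ^ k * (n : G) * (a ^ k)⁻¹ ∈ K),
      T n = (b ^ k)⁻¹ * s ⟨_, h⟩ * b ^ k := by
    intro n k h
    obtain ⟨h1, h2⟩ := hlift n k h
    obtain ⟨h3, h4⟩ := hlift n (κ n) (hκ n)
    exact a1_eq hπ hZ (h3.trans h1.symm) h4 h2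
  let t : N →* E := MonoidHom.mk' T (by
    intro n n'
    obtain ⟨k, h1, h2⟩ := ((hev n).and (hev n')).exists
    have h3 : a ^ k * ((n * n' : N) : G) * (a ^ k)⁻¹ ∈ K := by
      have h4 := K.mul_mem h1 h2
      have h5 : a ^ k * ((n * n' : N) : G) * (a ^ k)⁻¹ =
          a ^ k * (n : G) * (a ^ k)⁻¹ * (a ^ k * (n' : G) * (a ^ k)⁻¹) := by
        rw [Subgroup.coe_mul]
        group
      rwa [h5]
    rw [hT _ k h3, hT _ k h1, hT _ k h2]
    have h6 : (⟨_, h3⟩ : K) = ⟨_, h1⟩ * ⟨_, h2⟩ := by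
      apply Subtype.ext
      change a ^ k * ((n : G) * n') * (a ^ k)⁻¹ =
          a ^ k * (n : G) * (a ^ k)⁻¹ * (a ^ k * (n' : G) * (a ^ k)⁻¹)
      group
    rw [h6, map_mul]
    group)
  have htT : ∀ n, t n = T n := fun n => rfl
  refine ⟨t, ?_, fun n => (hlift n (κ n) (hκ n)).1⟩
  apply continuous_of_continuousAt_one t
  rw [ContinuousAt, map_one]
  intro O hO
  have h1 : s ⁻¹' O ∈ 𝓝 (1 : K) := by
    have h2 := hs.continuous.tendsto 1
    rw [map_one] at h2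
    exact h2 hO
  rw [nhds_subtype_eq_comap, mem_comap] at h1
  obtain ⟨O', hO', hs'⟩ := h1
  have h2 : Tendsto (fun n : N => (n : G)) (𝓝 1) (𝓝 1) := continuous_subtype_val.tendsto 1
  rw [mem_map]
  filter_upwards [h2 (hK.mem_nhds K.one_mem), h2 hO'] with n h3 h4
  have h5 : a ^ 0 * (n : G) * (a ^ 0)⁻¹ ∈ K := by simpa using h3
  change t n ∈ O
  rw [htT, hT n 0 h5]
  have h6 : (b ^ 0)⁻¹ * s ⟨_, h5⟩ * b ^ 0 = s ⟨n, h3⟩ := by
    have h7 : (⟨_, h5⟩ : K) = ⟨n, h3⟩ := Subtype.ext (by simp)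
    rw [h7]
    simp
  rw [h6]
  exact hs' h4

end Pool.Agent.Lib.H40G
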