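import Mathlib

/-!
# H40G (MP_eb52a2_al), file A5: unipotent matrices satisfy `n ^ (p ^ k) → 1`
-/

set_option autoImplicit false

namespace Pool.Agent.Lib.H40G

open Filter Topology

/-- `p ^ (k - v)` divides `C(p ^ k, i)`, `v` the exponent of `p` in `i`. -/
theorem a5_dvd {p : ℕ} (hp : p.Prime) {i : ℕ} (hi : i ≠ 0) :
    ∃ v : ℕ, ∀ k : ℕ, v ≤ k → p ^ (k - v) ∣ (p ^ k).choose i := by
  obtain ⟨v, i', hi', hiv⟩ := Nat.exists_eq_pow_mul_and_not_dvd hi p hp.one_lt.ne'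
  refine ⟨v, fun k hk => ?_⟩
  obtain ⟨j, rfl⟩ : ∃ j, i = j + 1 := ⟨i - 1, by omega⟩
  obtain ⟨q, hq⟩ : ∃ q, p ^ k = q + 1 := ⟨p ^ k - 1, by
    have := pow_pos hp.pos k
    omega⟩
  have h1 := Nat.add_one_mul_choose_eq q j
  rw [← hq] at h1
  have h2 : p ^ v * (p ^ (k - v) * q.choose j) = p ^ v * ((p ^ k).choose (j + 1) * i') := by
    calc p ^ v * (p ^ (k - v) * q.choose j) = p ^ (v + (k - v)) * q.choose j := by
          rw [pow_add]; ring
      _ = p ^ k * q.choose j := by rw [Nat.add_sub_cancel' hk]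
      _ = (p ^ k).choose (j + 1) * (j + 1) := h1
      _ = (p ^ k).choose (j + 1) * (p ^ v * i') := by rw [← hiv]
      _ = _ := by ring
  have h3 := Nat.eq_of_mul_eq_mul_left (pow_pos hp.pos v) h2
  have h4 : Nat.Coprime (p ^ (k - v)) i' := (Nat.Prime.coprime_iff_not_dvd hp).2 hi' |>.pow_left _
  exact h4.dvd_of_dvd_mul_right (h3 ▸ dvd_mul_right _ _)

theorem a5_choose {p : ℕ} (hp : p.Prime) {F : Type*} [NormedField F] [IsUltrametricDist F]
    (hF : ‖(p : F)‖ < 1) {i : ℕ} (hi : i ≠ 0) :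
    Tendsto (fun k : ℕ => ((p ^ k).choose i : F)) atTop (𝓝 0) := by
  obtain ⟨v, hv⟩ := a5_dvd hp hi
  rw [tendsto_zero_iff_norm_tendsto_zero]
  have h1 : Tendsto (fun k : ℕ => ‖(p : F)‖ ^ (k - v)) atTop (𝓝 0) :=
    (tendsto_pow_atTop_nhds_zero_of_lt_one (norm_nonneg _) hF).comp (tendsto_sub_atTop_nat v)
  refine squeeze_zero' (Eventually.of_forall fun k => norm_nonneg _) ?_ h1
  filter_upwards [eventually_ge_atTop v] with k hk
  obtain ⟨c, hc⟩ := hv k hk
  rw [hc, Nat.cast_mul, Nat.cast_pow, norm_mul, norm_pow]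
  have h2 : ‖(c : F)‖ ≤ 1 := IsUltrametricDist.norm_natCast_le_one F c
  have h3 : 0 ≤ ‖(p : F)‖ ^ (k - v) := by positivity
  nlinarith

theorem a5_pow {R : Type*} [Ring R] {X : R} {M : ℕ} (hX : X ^ M = 0) (q : ℕ) :
    (X + 1) ^ q = ∑ i ∈ Finset.range M, X ^ i * (q.choose i : R) := by
  have h0 : (X + 1) ^ q = ∑ i ∈ Finset.range (q + 1), X ^ i * (q.choose i : R) := by
    rw [(Commute.one_right X).add_pow]
    simp
  have h1 : ∀ i, M ≤ i → X ^ i * (q.choose i : R) = 0 := by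
    intro i hi
    rw [pow_eq_zero_of_le hi hX, zero_mul]
  have h2 : ∀ i, q < i → X ^ i * (q.choose i : R) = 0 := by
    intro i hi
    rw [Nat.choose_eq_zero_of_lt hi, Nat.cast_zero, mul_zero]
  rw [h0]
  rcases le_total M (q + 1) with h | h
  · symm
    refine Finset.sum_subset (Finset.range_subset_range.2 h) fun i _ hi => h1 i ?_
    simpa using hi
  · refine Finset.sum_subset (Finset.range_subset_range.2 h) fun i _ hi => h2 i ?_
    have : ¬ i < q + 1 := by simpa using hi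
    omega

variable {p : ℕ} {F : Type*} [NormedField F] [IsUltrametricDist F] {ι : Type*} [Fintype ι]
  [DecidableEq ι]

theorem a5_matrix (hp : p.Prime) (hF : ‖(p : F)‖ < 1) {A : Matrix ι ι F} (hA : IsNilpotent (A - 1)) :
    Tendsto (fun k : ℕ => A ^ (p ^ k)) atTop (𝓝 1) := by
  obtain ⟨M, hM⟩ := hA
  have h1 : ∀ q : ℕ, A ^ q = ∑ i ∈ Finset.range (M + 1), (A - 1) ^ i * (q.choose i : Matrix ι ι F) := by
    intro q
    rw [← a5_pow (pow_eq_zero_of_le (Nat.le_succ M) hM) q, sub_add_cancel]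
  have h2 : ∀ i, Tendsto (fun k : ℕ => (A - 1) ^ i * (((p ^ k).choose i : ℕ) : Matrix ι ι F)) atTop
      (𝓝 (if i = 0 then 1 else 0)) := by
    intro i
    by_cases hi : i = 0
    · subst hi
      simp
    · rw [if_neg hi]
      have h3 := a5_choose hp hF hi
      have h4 : ∀ k : ℕ, (A - 1) ^ i * (((p ^ k).choose i : ℕ) : Matrix ι ι F) =
          (((p ^ k).choose i : ℕ) : F) • (A - 1) ^ i := by
        intro k
        rw [← nsmul_eq_mul', Nat.cast_smul_eq_nsmul]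
      simp only [h4]
      have h5 := h3.smul_const ((A - 1) ^ i)
      rwa [zero_smul] at h5
  have h3 : Tendsto (fun k : ℕ => A ^ (p ^ k)) atTop
      (𝓝 (∑ i ∈ Finset.range (M + 1), if i = 0 then (1 : Matrix ι ι F) else 0)) := by
    simp only [h1]
    exact tendsto_finsetSum _ fun i _ => h2 i
  have h4 : (∑ i ∈ Finset.range (M + 1), if i = 0 then (1 : Matrix ι ι F) else 0) = 1 := by
    rw [Finset.sum_ite_eq' (Finset.range (M + 1)) 0 fun _ => (1 : Matrix ι ι F), if_pos (by simp)]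
  rwa [h4] at h3

/-- The power sequence of a unipotent matrix tends to `1` in the group of invertible matrices. -/
theorem a5_unip (hp : p.Prime) (hF : ‖(p : F)‖ < 1) {A : (Matrix ι ι F)ˣ}
    (hA : IsNilpotent ((A : Matrix ι ι F) - 1)) : Tendsto (fun k : ℕ => A ^ (p ^ k)) atTop (𝓝 1) := by
  rw [Units.isEmbedding_embedProduct.tendsto_nhds_iff]
  have h1 := a5_matrix hp hF hA
  have hA' : IsNilpotent (((A⁻¹ : (Matrix ι ι F)ˣ) : Matrix ι ι F) - 1) := by
    have h2 : ((A⁻¹ : (Matrix ι ι F)ˣ) : Matrix ι ι F) - 1 =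
        -(((A⁻¹ : (Matrix ι ι F)ˣ) : Matrix ι ι F) * ((A : Matrix ι ι F) - 1)) := by
      rw [mul_sub, Units.inv_mul, mul_one, neg_sub]
    rw [h2]
    refine IsNilpotent.neg ?_
    refine Commute.isNilpotent_mul_left ?_ hA
    have h3 : Commute ((A⁻¹ : (Matrix ι ι F)ˣ) : Matrix ι ι F) (A : Matrix ι ι F) := by
      rw [Commute, SemiconjBy, Units.inv_mul, Units.mul_inv]
    exact h3.sub_right (Commute.one_right _)
  have h2 := a5_matrix hp hF hA'
  have h3 : Tendsto (fun k : ℕ => ((A ^ (p ^ k) : (Matrix ι ι F)ˣ) : Matrix ι ι F)) atTop (𝓝 1) := by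
    simpa using h1
  have h4 : Tendsto (fun k : ℕ => MulOpposite.op (((A ^ (p ^ k))⁻¹ : (Matrix ι ι F)ˣ) : Matrix ι ι F))
      atTop (𝓝 (MulOpposite.op 1)) := by
    refine (MulOpposite.continuous_op.tendsto _).comp ?_
    refine h2.congr fun k => ?_
    rw [← inv_pow, Units.val_pow_eq_pow_val]
  exact h3.prodMk_nhds h4

end Pool.Agent.Lib.H40G
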