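import Pool.Agent.Lib.H40G.A3
import Pool.Agent.Lib.H40G.A4
import Pool.Agent.Lib.H40G.A5

/-!
# H40G (MP_eb52a2_al), file A6: covers of degree prime to `p`: the equivalence holds
-/

set_option autoImplicit false

namespace Pool.Agent.Lib.H40G

open Filter Topology Pool.Agent.Lib.Helper67

/-- A pair `(N, ψ)`: a subgroup `N` of `G` with a character `ψ`. -/
abbrev Pair (G : Type*) [Group G] : Type _ := Σ N : Subgroup G, N →* ℂˣ

/-- `σ` has a nonzero `(N, ψ)`-equivariant functional for some pair `(N, ψ)` in `𝒲`: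
`Hom_N(σ, ψ) ≠ 0`. -/
def GenericOn {G : Type*} [Group G] (𝒲 : Set (Pair G)) {V : Type*} [AddCommGroup V] [Module ℂ V]
    (σ : Representation ℂ G V) : Prop :=
  ∃ w ∈ 𝒲, ∃ ξ : V →ₗ[ℂ] ℂ, ξ ≠ 0 ∧ ∀ (n : w.1) (v : V), ξ (σ n v) = (w.2 n : ℂ) * ξ v

/-- A representation `σ` of the cover `E` of `G` has a nonzero `(N, ψ)`-equivariant functional for
some pair `(N, ψ)` in `𝒲`, where `N` is lifted to `E` by a splitting. -/
def GenericOnCover {E G : Type*} [Group E] [TopologicalSpace E] [Group G] [TopologicalSpace G]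
    (π : E →* G) (𝒲 : Set (Pair G)) {V : Type*} [AddCommGroup V] [Module ℂ V]
    (σ : Representation ℂ E V) : Prop :=
  ∃ w ∈ 𝒲, ∃ t : w.1 →* E, IsSplitting π w.1 t ∧
    ∃ ξ : V →ₗ[ℂ] ℂ, ξ ≠ 0 ∧ ∀ (n : w.1) (v : V), ξ (σ (t n) v) = (w.2 n : ℂ) * ξ v

section Abstract

variable {E G : Type*} [Group E] [TopologicalSpace E] [IsTopologicalGroup E] [T2Space E]
  [Group G] [TopologicalSpace G] [IsTopologicalGroup G] {π : E →* G}
  {V : Type*} [AddCommGroup V] [Module ℂ V] {K : Subgroup G} {s : K →* E}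

theorem a6_iso (hπ : IsFiniteCover π) {p : ℕ} (hZ : (Nat.card π.ker).Coprime p)
    (hK : IsOpen (K : Set G)) (hs : IsSplitting π K s) (ε : π.ker →* ℂˣ)
    (ρ : Representation ℂ K V) {N : Subgroup G}
    (hN : ∀ n ∈ N, Tendsto (fun k : ℕ => n ^ (p ^ k)) atTop (𝓝 1)) {t : N →* E}
    (ht : IsSplitting π N t) :
    ∃ Φ : cInd K ρ ≃ₗ[ℂ] cInd (K.comap π) (coverRep hπ ε hs ρ),
      ∀ (n : N) (f : cInd K ρ), Φ (cIndRep K ρ n f) = cIndRep (K.comap π) _ (t n) (Φ f) :=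
  a3_iso hπ hK hs ε ht.proj fun e k n h => a1_agree hπ hZ hs ht hN e k n h

theorem a6_iff (hπ : IsFiniteCover π) {p : ℕ} (hZ : (Nat.card π.ker).Coprime p)
    (hK : IsOpen (K : Set G)) (hs : IsSplitting π K s) (ε : π.ker →* ℂˣ)
    (ρ : Representation ℂ K V) (𝒲 : Set (Pair G))
    (h1 : ∀ w ∈ 𝒲, ∀ n ∈ w.1, Tendsto (fun k : ℕ => n ^ (p ^ k)) atTop (𝓝 1))
    (h2 : ∀ w ∈ 𝒲, ∃ a : G, ∀ n ∈ w.1, Tendsto (fun k : ℕ => a ^ k * n * (a ^ k)⁻¹) atTop (𝓝 1)) :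
    GenericOnCover π 𝒲 (cIndRep (K.comap π) (coverRep hπ ε hs ρ)) ↔
      GenericOn 𝒲 (cIndRep K ρ) := by
  constructor
  · rintro ⟨w, hw, t, ht, ξ, hξ, h⟩
    obtain ⟨Φ, hΦ⟩ := a6_iso hπ hZ hK hs ε ρ (h1 w hw) ht
    refine ⟨w, hw, ξ.comp Φ.toLinearMap, fun h0 => hξ ?_, fun n v => ?_⟩
    · ext v
      have h3 := LinearMap.congr_fun h0 (Φ.symm v)
      simpa using h3
    · change ξ (Φ (cIndRep K ρ n v)) = _ * ξ (Φ v)
      rw [hΦ, h]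
  · rintro ⟨w, hw, ξ, hξ, h⟩
    obtain ⟨a, ha⟩ := h2 w hw
    obtain ⟨t, ht⟩ := a4_exists hπ hZ hK hs (h1 w hw) ha
    obtain ⟨Φ, hΦ⟩ := a6_iso hπ hZ hK hs ε ρ (h1 w hw) ht
    refine ⟨w, hw, t, ht, ξ.comp Φ.symm.toLinearMap, fun h0 => hξ ?_, fun n v => ?_⟩
    · ext v
      have h3 := LinearMap.congr_fun h0 (Φ v)
      simpa using h3
    · change ξ (Φ.symm (cIndRep _ _ (t n) v)) = _ * ξ (Φ.symm v)
      rw [← h]
      congr 1
      rw [LinearEquiv.symm_apply_eq, hΦ, LinearEquiv.apply_symm_apply]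

end Abstract

/-- **Covers of degree prime to the residue characteristic.** -/
theorem a6_main {p : ℕ} (hp : p.Prime) {F : Type*} [NormedField F] [IsUltrametricDist F]
    (hF : ‖(p : F)‖ < 1) {m : ℕ} (G : Subgroup (GL (Fin m) F)) {E : Type*} [Group E]
    [TopologicalSpace E] [IsTopologicalGroup E] [T2Space E] {π : E →* G} (hπ : IsFiniteCover π)
    (hZ : ¬ p ∣ Nat.card π.ker) (ε : π.ker →* ℂˣ) {K : Subgroup G} (hK : IsOpen (K : Set G))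
    {s : K →* E} (hs : IsSplitting π K s) {V : Type*} [AddCommGroup V] [Module ℂ V]
    (ρ : Representation ℂ K V) :
    (∀ N : Subgroup G, (∀ n ∈ N, IsNilpotent (((n : GL (Fin m) F) : Matrix (Fin m) (Fin m) F) - 1)) →
      (∀ t : N →* E, IsSplitting π N t →
        (∀ t', IsSplitting π N t' → t' = t) ∧
        ∃ Φ : cInd K ρ ≃ₗ[ℂ] cInd (K.comap π) (coverRep hπ ε hs ρ),
          ∀ (n : N) (f : cInd K ρ), Φ (cIndRep K ρ n f) = cIndRep (K.comap π) _ (t n) (Φ f)) ∧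
      ((∃ a : G, ∀ n ∈ N, Tendsto (fun k : ℕ => a ^ k * n * (a ^ k)⁻¹) atTop (𝓝 1)) →
        ∃ t : N →* E, IsSplitting π N t)) ∧
    ∀ 𝒲 : Set (Pair G),
      (∀ w ∈ 𝒲, (∀ n ∈ w.1, IsNilpotent (((n : GL (Fin m) F) : Matrix (Fin m) (Fin m) F) - 1)) ∧
        ∃ a : G, ∀ n ∈ w.1, Tendsto (fun k : ℕ => a ^ k * n * (a ^ k)⁻¹) atTop (𝓝 1)) →
      (GenericOnCover π 𝒲 (cIndRep (K.comap π) (coverRep hπ ε hs ρ)) ↔
        GenericOn 𝒲 (cIndRep K ρ)) := by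
  have hcop : (Nat.card π.ker).Coprime p := ((Nat.Prime.coprime_iff_not_dvd hp).2 hZ).symm
  have hpow : ∀ N : Subgroup G,
      (∀ n ∈ N, IsNilpotent (((n : GL (Fin m) F) : Matrix (Fin m) (Fin m) F) - 1)) →
      ∀ n ∈ N, Tendsto (fun k : ℕ => n ^ (p ^ k)) atTop (𝓝 1) := by
    intro N hN n hn
    rw [tendsto_subtype_rng]
    refine (a5_unip hp hF (hN n hn)).congr fun k => ?_
    rw [SubmonoidClass.coe_pow]
  refine ⟨fun N hN => ⟨fun t ht => ⟨fun t' ht' => a4_unique hπ hcop (hpow N hN) ht' ht,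
    a6_iso hπ hcop hK hs ε ρ (hpow N hN) ht⟩, ?_⟩, fun 𝒲 h𝒲 => ?_⟩
  · rintro ⟨a, ha⟩
    exact a4_exists hπ hcop hK hs (hpow N hN) ha
  · exact a6_iff hπ hcop hK hs ε ρ 𝒲 (fun w hw => hpow w.1 (h𝒲 w hw).1) fun w hw => (h𝒲 w hw).2

end Pool.Agent.Lib.H40G
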