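import Pool.Agent.Lib.H40G.A6

/-!
# H40G (MP_eb52a2_al), file A6B: the same for conjugates `x N₀ x⁻¹`, parametrised by `N₀`
-/

set_option autoImplicit false

namespace Pool.Agent.Lib.H40G

open Filter Topology Pool.Agent.Lib.Helper67

variable {E G : Type*} [Group E] [TopologicalSpace E] [IsTopologicalGroup E] [T2Space E]
  [Group G] [TopologicalSpace G] [IsTopologicalGroup G] {π : E →* G}
  {V : Type*} [AddCommGroup V] [Module ℂ V] {K : Subgroup G} {s : K →* E}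

theorem mem_conj {N₀ : Subgroup G} {x y : G} (hy : y ∈ N₀.map (MulAut.conj x).toMonoidHom) :
    x⁻¹ * y * x ∈ N₀ := by
  obtain ⟨n, hn, rfl⟩ := hy
  have : x⁻¹ * (MulAut.conj x).toMonoidHom n * x = n := by
    change x⁻¹ * (x * n * x⁻¹) * x = n
    group
  rw [this]
  exact hn

theorem conj_pow_tendsto {N₀ : Subgroup G} {p : ℕ}
    (hN : ∀ n ∈ N₀, Tendsto (fun k : ℕ => n ^ (p ^ k)) atTop (𝓝 1)) (x : G) :
    ∀ y ∈ N₀.map (MulAut.conj x).toMonoidHom, Tendsto (fun k : ℕ => y ^ (p ^ k)) atTop (𝓝 1) := by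
  intro y hy
  have h := a1_conj (hN _ (mem_conj hy)) x
  have h2 : x * (x⁻¹ * y * x) * x⁻¹ = y := by group
  rwa [h2] at h

theorem a6b_iso (hπ : IsFiniteCover π) {p : ℕ} (hZ : (Nat.card π.ker).Coprime p)
    (hK : IsOpen (K : Set G)) (hs : IsSplitting π K s) (ε : π.ker →* ℂˣ)
    (ρ : Representation ℂ K V) {N₀ : Subgroup G}
    (hN : ∀ n ∈ N₀, Tendsto (fun k : ℕ => n ^ (p ^ k)) atTop (𝓝 1)) (x : G) {t : N₀ →* E}
    (htc : Continuous t) (ht : ∀ n : N₀, π (t n) = x * n * x⁻¹) :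
    ∃ Φ : cInd K ρ ≃ₗ[ℂ] cInd (K.comap π) (coverRep hπ ε hs ρ),
      ∀ (n : N₀) (f : cInd K ρ),
        Φ (cIndRep K ρ (x * n * x⁻¹) f) = cIndRep (K.comap π) _ (t n) (Φ f) := by
  let j : N₀.map (MulAut.conj x).toMonoidHom →* N₀ :=
    { toFun := fun y => ⟨x⁻¹ * y.1 * x, mem_conj y.2⟩
      map_one' := Subtype.ext (by simp)
      map_mul' := fun y y' => Subtype.ext (by
        change x⁻¹ * (y.1 * y'.1) * x = x⁻¹ * y.1 * x * (x⁻¹ * y'.1 * x)
        group) }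
  have hj : Continuous j := by
    refine Continuous.subtype_mk ?_ _
    fun_prop
  have hs' : IsSplitting π (N₀.map (MulAut.conj x).toMonoidHom) (t.comp j) := by
    refine ⟨htc.comp hj, fun y => ?_⟩
    rw [MonoidHom.comp_apply, ht]
    change x * (x⁻¹ * y.1 * x) * x⁻¹ = y.1
    group
  obtain ⟨Φ, hΦ⟩ := a6_iso hπ hZ hK hs ε ρ (conj_pow_tendsto hN x) hs'
  refine ⟨Φ, fun n f => ?_⟩
  have hmem : x * (n : G) * x⁻¹ ∈ N₀.map (MulAut.conj x).toMonoidHom := ⟨n, n.2, rfl⟩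
  have h5 := hΦ ⟨x * (n : G) * x⁻¹, hmem⟩ f
  have h6 : j ⟨x * (n : G) * x⁻¹, hmem⟩ = n := by
    apply Subtype.ext
    change x⁻¹ * (x * n * x⁻¹) * x = n
    group
  rw [MonoidHom.comp_apply, h6] at h5
  exact h5

theorem a6b_exists (hπ : IsFiniteCover π) {p : ℕ} (hZ : (Nat.card π.ker).Coprime p)
    (hK : IsOpen (K : Set G)) (hs : IsSplitting π K s) {N₀ : Subgroup G}
    (hN : ∀ n ∈ N₀, Tendsto (fun k : ℕ => n ^ (p ^ k)) atTop (𝓝 1)) {a : G}
    (ha : ∀ n ∈ N₀, Tendsto (fun k : ℕ => a ^ k * n * (a ^ k)⁻¹) atTop (𝓝 1)) (x : G) :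
    ∃ t : N₀ →* E, Continuous t ∧ ∀ n : N₀, π (t n) = x * n * x⁻¹ := by
  have ha' : ∀ y ∈ N₀.map (MulAut.conj x).toMonoidHom,
      Tendsto (fun k : ℕ => (x * a * x⁻¹) ^ k * y * ((x * a * x⁻¹) ^ k)⁻¹) atTop (𝓝 1) := by
    intro y hy
    have h1 : Continuous fun z : G => x * z * x⁻¹ := by fun_prop
    have h2 := (h1.tendsto 1).comp (ha _ (mem_conj hy))
    rw [mul_one, mul_inv_cancel] at h2
    refine h2.congr fun k => ?_
    rw [Function.comp_apply, conj_pow]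
    group
  obtain ⟨t', ht'⟩ := a4_exists hπ hZ hK hs (conj_pow_tendsto hN x) ha'
  let j : N₀ →* N₀.map (MulAut.conj x).toMonoidHom :=
    { toFun := fun n => ⟨x * n.1 * x⁻¹, ⟨n, n.2, rfl⟩⟩
      map_one' := Subtype.ext (by simp)
      map_mul' := fun y y' => Subtype.ext (by
        change x * (y.1 * y'.1) * x⁻¹ = x * y.1 * x⁻¹ * (x * y'.1 * x⁻¹)
        group) }
  have hj : Continuous j := by
    refine Continuous.subtype_mk ?_ _
    fun_prop
  exact ⟨t'.comp j, ht'.continuous.comp hj, fun n => ht'.proj _⟩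

end Pool.Agent.Lib.H40G
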