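import Pool.Agent.Lib.H40G.A6B
import Pool.Agent.Lib.Helper67.CoverDefs

/-!
# H40G (MP_eb52a2_al), file A7: `Sp_4(ℚ_3)`, covers of degree prime to `3`
-/

set_option autoImplicit false

namespace Pool.Agent.Lib.H40G

open Filter Topology Matrix Pool.Agent.Lib.Helper67

/-- powers of a matrix which is strictly upper triangular with respect to `rk` -/
theorem a7_pow {X : Mat} (hX : ∀ i j, rk j ≤ rk i → X i j = 0) (k : ℕ) :
    ∀ i j, rk j < rk i + k → (X ^ k) i j = 0 := by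
  induction k with
  | zero =>
    intro i j h
    rw [pow_zero, Matrix.one_apply_ne]
    rintro rfl
    omega
  | succ k ih =>
    intro i j h
    rw [pow_succ, Matrix.mul_apply]
    refine Finset.sum_eq_zero fun l _ => ?_
    by_cases h1 : rk l < rk i + k
    · rw [ih i l h1, zero_mul]
    · rw [hX l j (by omega), mul_zero]

theorem a7_rk (i : Fin 2 ⊕ Fin 2) : rk i ≤ 3 := by
  rcases i with i | i
  · have := i.2
    simp only [rk]
    omega
  · simp only [rk]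
    omega

theorem a7_nil {n : Sp} (hn : n ∈ N₀) : IsNilpotent (n.1 - 1) := by
  refine ⟨4, ?_⟩
  have hX : ∀ i j, rk j ≤ rk i → (n.1 - 1) i j = 0 := by
    intro i j h
    rw [Matrix.sub_apply, (mem_N₀.1 hn) i j h, sub_self]
  ext i j
  rw [Matrix.zero_apply]
  exact a7_pow hX 4 i j (by have := a7_rk j; omega)

theorem a7_norm : ‖((3 : ℕ) : ℚ_[3])‖ < 1 := by
  have : ((3 : ℕ) : ℚ_[3]) = (3 : ℚ_[3]) := by norm_num
  rw [this, norm_three]
  norm_num

theorem a7_N₀ {n : Sp} (hn : n ∈ N₀) : Tendsto (fun k : ℕ => n ^ (3 ^ k)) atTop (𝓝 1) := by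
  rw [tendsto_subtype_rng]
  refine (a5_matrix Nat.prime_three a7_norm (a7_nil hn)).congr fun k => ?_
  rw [SubmonoidClass.coe_pow]

/-- the diagonal entries of the contracting element -/
noncomputable def dl : Fin 2 ⊕ Fin 2 → ℚ_[3]
  | Sum.inl i => if i = 0 then 27 else 3
  | Sum.inr i => if i = 0 then 27⁻¹ else 3⁻¹

theorem a7_dmem : Matrix.diagonal dl ∈ symplecticGroup (Fin 2) ℚ_[3] := by
  rw [SymplecticGroup.mem_iff]
  ext i j
  rw [Matrix.diagonal_transpose, Matrix.mul_diagonal, Matrix.diagonal_mul]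
  rcases i with i | i <;> rcases j with j | j <;> fin_cases i <;> fin_cases j <;>
    simp [J, dl]

/-- the contracting element of the torus -/
noncomputable def dd : Sp := ⟨_, a7_dmem⟩

theorem a7_pow_dd (k : ℕ) : (dd ^ k).1 = Matrix.diagonal fun i => dl i ^ k := by
  rw [SubmonoidClass.coe_pow]
  change (Matrix.diagonal dl) ^ k = _
  rw [Matrix.diagonal_pow]
  rfl

theorem a7_dl_ne (i : Fin 2 ⊕ Fin 2) : dl i ≠ 0 := by
  rcases i with i | i <;> fin_cases i <;> simp [dl]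

theorem a7_inv_dd (k : ℕ) : ((dd ^ k)⁻¹).1 = Matrix.diagonal fun i => (dl i ^ k)⁻¹ := by
  have h1 : (dd ^ k).1 * ((dd ^ k)⁻¹).1 = 1 := congrArg Subtype.val (mul_inv_cancel (dd ^ k))
  have h2 : (dd ^ k).1 * (Matrix.diagonal fun i => (dl i ^ k)⁻¹) = 1 := by
    rw [a7_pow_dd, Matrix.diagonal_mul_diagonal, ← Matrix.diagonal_one]
    congr 1
    funext i
    exact mul_inv_cancel₀ (pow_ne_zero _ (a7_dl_ne i))
  have h3 : ((dd ^ k)⁻¹).1 * (dd ^ k).1 = 1 := congrArg Subtype.val (inv_mul_cancel (dd ^ k))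
  calc ((dd ^ k)⁻¹).1 = ((dd ^ k)⁻¹).1 * ((dd ^ k).1 * (Matrix.diagonal fun i => (dl i ^ k)⁻¹)) := by
        rw [h2, mul_one]
    _ = _ := by rw [← mul_assoc, h3, one_mul]

theorem a7_ratio {i j : Fin 2 ⊕ Fin 2} (h : rk i < rk j) : ‖dl i * (dl j)⁻¹‖ < 1 := by
  have h3 : ‖(3 : ℚ_[3])‖ = 3⁻¹ := norm_three
  have h27 : ‖(27 : ℚ_[3])‖ = 27⁻¹ := by
    rw [show (27 : ℚ_[3]) = 3 ^ 3 by norm_num, norm_pow, h3]
    norm_num
  rw [norm_mul, norm_inv]
  rcases i with i | i <;> rcases j with j | j <;> fin_cases i <;> fin_cases j <;>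
    simp [rk, dl, h3, h27] at h ⊢ <;> norm_num

theorem a7_contract {n : Sp} (hn : n ∈ N₀) :
    Tendsto (fun k : ℕ => dd ^ k * n * (dd ^ k)⁻¹) atTop (𝓝 1) := by
  rw [tendsto_subtype_rng]
  change Tendsto (fun k : ℕ => (dd ^ k).1 * n.1 * ((dd ^ k)⁻¹).1) atTop (𝓝 (1 : Mat))
  refine tendsto_pi_nhds.2 fun i => tendsto_pi_nhds.2 fun j => ?_
  have h1 : ∀ k : ℕ, ((dd ^ k).1 * n.1 * ((dd ^ k)⁻¹).1) i j = n.1 i j * (dl i * (dl j)⁻¹) ^ k := by
    intro k
    rw [a7_inv_dd, a7_pow_dd, Matrix.mul_diagonal, Matrix.diagonal_mul, mul_pow, inv_pow]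
    ring
  simp only [h1]
  by_cases h : rk j ≤ rk i
  · rw [(mem_N₀.1 hn) i j h]
    by_cases hij : i = j
    · subst hij
      rw [mul_inv_cancel₀ (a7_dl_ne i)]
      simp
    · rw [Matrix.one_apply_ne hij]
      simp
  · push Not at h
    have hij : i ≠ j := by
      rintro rfl
      omega
    rw [Matrix.one_apply_ne hij]
    have h2 := (tendsto_pow_atTop_nhds_zero_of_norm_lt_one (a7_ratio h)).const_mul (n.1 i j)
    rwa [mul_zero] at h2

/-- **Covers of `Sp_4(ℚ_3)` of degree prime to `3`.** -/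
theorem a7_main (C : Cov) (h3 : ¬ 3 ∣ Nat.card C.p.ker) (I : Inst C) : I.GenericTilde ↔ I.Generic := by
  have hcop : (Nat.card C.p.ker).Coprime 3 :=
    ((Nat.Prime.coprime_iff_not_dvd Nat.prime_three).2 h3).symm
  constructor
  · rintro ⟨x, t, ψ, htc, ht, hψ, ξ, hξ, h⟩
    obtain ⟨Φ, hΦ⟩ := a6b_iso C.cover hcop I.openK I.splitting C.ε I.ρ (fun n hn => a7_N₀ hn) x htc ht
    refine ⟨x, (MulAut.conj x).toMonoidHom.comp N₀.subtype, ψ, ?_, fun n => rfl, hψ,
      ξ.comp Φ.toLinearMap, fun h0 => hξ ?_, fun n v => ?_⟩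
    · change Continuous fun n : N₀ => x * (n : Sp) * x⁻¹
      fun_prop
    · ext v
      have h4 := LinearMap.congr_fun h0 (Φ.symm v)
      simpa using h4
    · have h5 : ξ (Φ (cIndRep I.K I.ρ (x * n * x⁻¹) v)) = ψ n * ξ (Φ v) := by
        rw [hΦ, h]
      exact h5
  · rintro ⟨x, t₀, ψ, -, ht₀, hψ, ξ, hξ, h⟩
    obtain ⟨t, htc, ht⟩ := a6b_exists C.cover hcop I.openK I.splitting (fun n hn => a7_N₀ hn)
      (fun n hn => a7_contract hn) x
    obtain ⟨Φ, hΦ⟩ := a6b_iso C.cover hcop I.openK I.splitting C.ε I.ρ (fun n hn => a7_N₀ hn) x htc ht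
    refine ⟨x, t, ψ, htc, ht, hψ, ξ.comp Φ.symm.toLinearMap, fun h0 => hξ ?_, fun n v => ?_⟩
    · ext v
      have h4 := LinearMap.congr_fun h0 (Φ v)
      simpa using h4
    · have h5 := hΦ n (Φ.symm v)
      rw [LinearEquiv.apply_symm_apply] at h5
      have h6 : ξ (Φ.symm (cIndRep (I.K.comap C.p) _ (t n) v)) = ψ n * ξ (Φ.symm v) := by
        rw [← h5, LinearEquiv.symm_apply_apply]
        have h7 : t₀ n = x * n * x⁻¹ := ht₀ n
        rw [← h7]
        exact h n _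
      exact h6

end Pool.Agent.Lib.H40G
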