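import Pool.Agent.Lib.H40G.A7
import Pool.Agent.Lib.Helper67.Twist

/-!
# H40G (MP_eb52a2_al), file A8: covers of `Sp_4(ℚ_3)` of a given degree
-/

set_option autoImplicit false

namespace Pool.Agent.Lib.H40G

open Filter Topology Matrix Pool.Agent.Lib.Helper67

/-- The projection of the trivial cover `Sp_4(ℚ_3) × μ_m`. -/
noncomputable abbrev prm (m : ℕ) : Sp × rootsOfUnity m ℂ →* Sp := MonoidHom.fst Sp (rootsOfUnity m ℂ)

theorem prm_ext {m : ℕ} {x y : (prm m).ker} (h : x.1.2 = y.1.2) : x = y := by
  apply Subtype.ext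
  apply Prod.ext
  · have hx : (x.1).1 = 1 := MonoidHom.mem_ker.1 x.2
    have hy : (y.1).1 = 1 := MonoidHom.mem_ker.1 y.2
    rw [hx, hy]
  · exact h

theorem prm_cover (m : ℕ) [NeZero m] : IsFiniteCover (prm m) where
  continuous := continuous_fst
  isOpenMap := isOpenMap_fst
  surjective := Prod.fst_surjective
  central := by
    intro x hx
    rw [Subgroup.mem_center_iff]
    intro g
    have hx1 : x.1 = 1 := MonoidHom.mem_ker.1 hx
    apply Prod.ext
    · change g.1 * x.1 = x.1 * g.1
      rw [hx1, mul_one, one_mul]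
    · exact mul_comm g.2 x.2
  finite := Finite.of_injective (fun x : (prm m).ker => x.1.2) fun _ _ h => prm_ext h
  cyclic := isCyclic_of_injective ((MonoidHom.snd Sp (rootsOfUnity m ℂ)).comp (prm m).ker.subtype)
    fun _ _ h => prm_ext h

/-- The trivial cover `Sp_4(ℚ_3) × μ_m → Sp_4(ℚ_3)` with the character `(1, z) ↦ z`. -/
noncomputable def covM (m : ℕ) [NeZero m] : Cov where
  E := Sp × rootsOfUnity m ℂ
  p := prm m
  cover := prm_cover m
  ε := ((rootsOfUnity m ℂ).subtype.comp (MonoidHom.snd Sp (rootsOfUnity m ℂ))).comp (prm m).ker.subtype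
  faithful := fun _ _ h => prm_ext (Subtype.ext h)

theorem card_prm (m : ℕ) [NeZero m] : Nat.card (prm m).ker = m := by
  have e : (prm m).ker ≃ rootsOfUnity m ℂ :=
    { toFun := fun x => x.1.2
      invFun := fun z => ⟨(1, z), by rw [MonoidHom.mem_ker]; rfl⟩
      left_inv := fun x => prm_ext rfl
      right_inv := fun z => rfl }
  rw [Nat.card_congr e]
  exact Complex.card_rootsOfUnity m

theorem split_prm (m : ℕ) [NeZero m] : ∃ s, IsSplitting (prm m) KK s := by
  refine ⟨(MonoidHom.inl Sp (rootsOfUnity m ℂ)).comp KK.subtype, ?_, fun k => rfl⟩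
  exact Continuous.prodMk continuous_subtype_val continuous_const

/-- **The equivalence holds for all covers of degree `m` iff `3` does not divide `m`.** -/
theorem a8_main (m : ℕ) (hm : m ≠ 0) :
    (∀ C : Cov, Nat.card C.p.ker = m → ∀ I : Inst C, (I.GenericTilde ↔ I.Generic)) ↔ ¬ 3 ∣ m := by
  constructor
  · intro h h3
    have : NeZero m := ⟨hm⟩
    have hcard : Nat.card (covM m).p.ker = m := card_prm m
    obtain ⟨I, -, hI⟩ := partB (covM m) (by rw [hcard]; exact h3) (split_prm m)
    exact hI (h (covM m) hcard I)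
  · intro h3 C hC I
    exact a7_main C (by rw [hC]; exact h3) I

end Pool.Agent.Lib.H40G
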