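import Pool.Agent.Lib.H40G.A8

/-!
# H40G (MP_eb52a2_al), file A9: the statement for general groups
-/

set_option autoImplicit false

namespace Pool.Agent.Lib.H40G

open Filter Topology Pool.Agent.Lib.Helper67

/-- `N` consists of unipotent matrices (`G` is embedded in `GL_m(F)` by `φ`). -/
def IsUnipotent {G : Type} [Group G] {F : Type} [Field F] {m : ℕ} (φ : G →* GL (Fin m) F)
    (N : Subgroup G) : Prop :=
  ∀ n ∈ N, IsNilpotent ((φ n).1 - 1)

/-- Some element `a` of `G` contracts `N`: `a ^ k n a ^ (-k) → 1` for every `n ∈ N`. -/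
def IsContracted {G : Type} [Group G] [TopologicalSpace G] (N : Subgroup G) : Prop :=
  ∃ a : G, ∀ n ∈ N, Tendsto (fun k : ℕ => a ^ k * n * (a ^ k)⁻¹) atTop (𝓝 1)

/-- A finite cover `π : E → G` with cyclic kernel and a character `ε` of the kernel. -/
structure Cover (G : Type) [Group G] [TopologicalSpace G] where
  E : Type
  [group : Group E]
  [top : TopologicalSpace E]
  [topGroup : IsTopologicalGroup E]
  [hausdorff : T2Space E]
  π : E →* G
  cover : IsFiniteCover π
  ε : π.ker →* ℂˣ

attribute [instance] Cover.group Cover.top Cover.topGroup Cover.hausdorff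

/-- The order of the kernel of the cover. -/
noncomputable def Cover.degree {G : Type} [Group G] [TopologicalSpace G] (C : Cover G) : ℕ :=
  Nat.card C.π.ker

/-- An open subgroup `K` of `G`, a splitting `s` over `K` and a representation `ρ` of `K`. -/
structure Datum {G : Type} [Group G] [TopologicalSpace G] (C : Cover G) where
  K : Subgroup G
  openK : IsOpen (K : Set G)
  s : K →* C.E
  splitting : IsSplitting C.π K s
  V : Type
  [addCommGroup : AddCommGroup V]
  [module : Module ℂ V]
  ρ : Representation ℂ K V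

attribute [instance] Datum.addCommGroup Datum.module

/-- The representations `σ` of `G` and `τ` of `E` become isomorphic when restricted to `N`, which is
mapped to `E` by `t`. -/
def SameRestriction {G E : Type} [Group G] [Group E] {N : Subgroup G} (t : N →* E) {V W : Type}
    [AddCommGroup V] [Module ℂ V] [AddCommGroup W] [Module ℂ W] (σ : Representation ℂ G V)
    (τ : Representation ℂ E W) : Prop :=
  ∃ Φ : V ≃ₗ[ℂ] W, ∀ (n : N) (v : V), Φ (σ n v) = τ (t n) (Φ v)

variable {G : Type} [Group G] [TopologicalSpace G] [IsTopologicalGroup G] {C : Cover G}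

/-- `Π = ind_K^G ρ` -/
def Datum.ind (D : Datum C) : Representation ℂ G (cInd D.K D.ρ) := cIndRep D.K D.ρ

/-- `Π̃`, the representation of the cover induced from `ρ̃` -/
def Datum.indTilde (D : Datum C) :
    Representation ℂ C.E (cInd (D.K.comap C.π) (coverRep C.cover C.ε D.splitting D.ρ)) :=
  cIndRep (D.K.comap C.π) (coverRep C.cover C.ε D.splitting D.ρ)

/-- The restriction of `Π̃` to the image of `N` by `t` is isomorphic to the restriction of `Π` to `N`. -/
def Datum.SameRes (D : Datum C) {N : Subgroup G} (t : N →* C.E) : Prop :=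
  SameRestriction t D.ind D.indTilde

/-- `Π` is generic for the set `𝒲` of pairs `(N, ψ)`. -/
def Datum.Generic (D : Datum C) (𝒲 : Set (Pair G)) : Prop := GenericOn 𝒲 D.ind

/-- `Π̃` is generic for the set `𝒲` of pairs `(N, ψ)`. -/
def Datum.GenericTilde (D : Datum C) (𝒲 : Set (Pair G)) : Prop := GenericOnCover C.π 𝒲 D.indTilde

/-- For every subgroup `N` of unipotent elements: a splitting `t` over `N` is unique, `Π̃` and `Π` have
isomorphic restrictions to `N`, and `t` exists if `N` is contracted by an element of `G`.  For every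
set `𝒲` of pairs `(N, ψ)` with such `N`, `Π̃` is generic iff `Π` is. -/
def Equivalence {F : Type} [Field F] {m : ℕ} (φ : G →* GL (Fin m) F) (D : Datum C) : Prop :=
  (∀ N : Subgroup G, IsUnipotent φ N →
    (∀ t : N →* C.E, IsSplitting C.π N t →
      (∀ t' : N →* C.E, IsSplitting C.π N t' → t' = t) ∧ D.SameRes t) ∧
    (IsContracted N → ∃ t : N →* C.E, IsSplitting C.π N t)) ∧
  ∀ 𝒲 : Set (Pair G), (∀ w ∈ 𝒲, IsUnipotent φ w.1 ∧ IsContracted w.1) →
    (D.GenericTilde 𝒲 ↔ D.Generic 𝒲)

/-- **Covers of degree prime to `p`.**  `Equivalence` holds if `F` is a non-archimedean normed field of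
residue characteristic `p`, `G` a topological group with a topological embedding `φ` into `GL_m(F)`,
`C` a cover of `G` of degree prime to `p` and `D = (K, s, ρ)` any datum. -/
def CoprimeDegree : Prop :=
  ∀ (p : ℕ), p.Prime → ∀ (F : Type) [NormedField F] [IsUltrametricDist F], ‖(p : F)‖ < 1 →
    ∀ (m : ℕ) (G : Type) [Group G] [TopologicalSpace G] [IsTopologicalGroup G]
      (φ : G →* GL (Fin m) F), IsInducing φ →
    ∀ C : Cover G, ¬ p ∣ C.degree → ∀ D : Datum C, Equivalence φ D

theorem a9_main : CoprimeDegree := by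
  intro p hp F _ _ hF m G _ _ _ φ hφ C hZ D
  have hcop : (Nat.card C.π.ker).Coprime p := ((Nat.Prime.coprime_iff_not_dvd hp).2 hZ).symm
  have hpow : ∀ N : Subgroup G, IsUnipotent φ N →
      ∀ n ∈ N, Tendsto (fun k : ℕ => n ^ (p ^ k)) atTop (𝓝 1) := by
    intro N hN n hn
    rw [hφ.tendsto_nhds_iff, map_one]
    refine (a5_unip hp hF (hN n hn)).congr fun k => ?_
    rw [Function.comp_apply, map_pow]
  refine ⟨fun N hN => ⟨fun t ht => ⟨fun t' ht' => a4_unique C.cover hcop (hpow N hN) ht' ht,
    a6_iso C.cover hcop D.openK D.splitting C.ε D.ρ (hpow N hN) ht⟩, ?_⟩, fun 𝒲 h𝒲 => ?_⟩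
  · rintro ⟨a, ha⟩
    exact a4_exists C.cover hcop D.openK D.splitting (hpow N hN) ha
  · exact a6_iff C.cover hcop D.openK D.splitting C.ε D.ρ 𝒲 (fun w hw => hpow w.1 (h𝒲 w hw).1)
      fun w hw => (h𝒲 w hw).2

end Pool.Agent.Lib.H40G
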